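import Mathlib

open MeasureTheory Set FourierTransform
open scoped ENNReal Real

namespace Pool.Agent.R230.DR

/-- complex `L²` of the line -/
abbrev L2 : Type := Lp ℂ 2 (volume : Measure ℝ)

lemma continuous_fourierInv (h : ℝ → ℂ) (h1 : Integrable h) : Continuous (𝓕⁻ h) := by
  have : 𝓕⁻ h = fun x => 𝓕 h (-x) := by
    ext x
    rw [Real.fourierInv_eq_fourier_neg]
  rw [this]
  have h2 : Continuous (𝓕 h) :=
    VectorFourier.fourierIntegral_continuous Real.continuous_fourierChar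
      (by
        show Continuous fun p : ℝ × ℝ => (innerₗ ℝ) p.1 p.2
        exact continuous_inner) h1
  exact h2.comp continuous_neg

lemma fourierInv_swap (h g : ℝ → ℂ) (h1 : Integrable h) (g1 : Integrable g) :
    ∫ x, 𝓕⁻ g x * h x = ∫ x, g x * 𝓕⁻ h x := by
  have e1 : 𝓕⁻ g = fun x => 𝓕 g (-x) := by
    ext x
    rw [Real.fourierInv_eq_fourier_neg]
  have e2 : 𝓕⁻ h = 𝓕 (fun x => h (-x)) := Real.fourierInv_eq_fourier_comp_neg h
  have key := VectorFourier.integral_fourierIntegral_smul_eq_flip (μ := (volume : Measure ℝ))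
    (ν := (volume : Measure ℝ)) (L := innerₗ ℝ) (f := g) (g := fun x => h (-x))
    Real.continuous_fourierChar continuous_inner g1 h1.comp_neg
  rw [e2]
  have e3 : ∫ x, 𝓕⁻ g x * h x = ∫ x, 𝓕 g x * h (-x) := by
    rw [e1]
    rw [← integral_neg_eq_self]
    simp
  rw [e3]
  have e4 : (innerₗ ℝ : ℝ →ₗ[ℝ] ℝ →ₗ[ℝ] ℝ).flip = innerₗ ℝ := by
    simp
  rw [e4] at key
  simp only [smul_eq_mul] at key
  exact key

lemma fourierInv_toLp_ae (h : ℝ → ℂ) (h1 : Integrable h) (h2 : MemLp h 2 volume) :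
    ((𝓕⁻ (h2.toLp h) : L2) : ℝ → ℂ) =ᵐ[volume] 𝓕⁻ h := by
  apply ae_eq_of_integral_contDiff_smul_eq
  · exact (Lp.memLp _).locallyIntegrable (by norm_num)
  · exact (continuous_fourierInv h h1).locallyIntegrable
  · intro g g_smooth g_cpt
    have hg₁ : HasCompactSupport (Complex.ofRealCLM ∘ g) := g_cpt.comp_left rfl
    have hg₂ : ContDiff ℝ (⊤ : ℕ∞) (Complex.ofRealCLM ∘ g) := by fun_prop
    set φ : SchwartzMap ℝ ℂ := hg₁.toSchwartzMap hg₂ with hφ
    have hφx : ∀ x, φ x = (g x : ℂ) := fun x => rfl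
    have a1 : ∫ x, g x • (𝓕⁻ (h2.toLp h) : L2) x =
        Lp.toTemperedDistribution (𝓕⁻ (h2.toLp h) : L2) φ := by
      rw [Lp.toTemperedDistribution_apply]
      simp only [hφx, Complex.real_smul, smul_eq_mul]
    rw [a1, ← Lp.fourierInv_toTemperedDistribution_eq, TemperedDistribution.fourierInv_apply,
      Lp.toTemperedDistribution_apply]
    have a2 : ∫ x, (𝓕⁻ φ) x • (h2.toLp h) x = ∫ x, 𝓕⁻ (φ : ℝ → ℂ) x * h x := by
      apply integral_congr_ae
      filter_upwards [h2.coeFn_toLp] with x hx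
      rw [hx, smul_eq_mul, ← SchwartzMap.fourierInv_coe]
    rw [a2, fourierInv_swap h φ h1 φ.integrable]
    simp only [hφx, Complex.real_smul]

/-- Frequency side function: `|a|^{-1/2} e^{-2πi l ξ/a} 1_S(ξ/a)`. -/
noncomputable def gfun (S : Set ℝ) (a l : ℝ) (ξ : ℝ) : ℂ :=
  (S.indicator (fun _ => (1 : ℂ)) (ξ / a)) *
    (((√|a|)⁻¹ : ℝ) * Complex.exp (((-2 * π * (l * (ξ / a)) : ℝ) : ℂ) * Complex.I))

lemma gfun_eq_indicator (S : Set ℝ) (a l : ℝ) :
    gfun S a l = ((fun ξ : ℝ => ξ / a) ⁻¹' S).indicator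
      (fun ξ => (((√|a|)⁻¹ : ℝ) *
        Complex.exp (((-2 * π * (l * (ξ / a)) : ℝ) : ℂ) * Complex.I))) := by
  ext ξ
  unfold gfun
  by_cases h : ξ / a ∈ S
  · rw [indicator_of_mem h, indicator_of_mem (by exact h), one_mul]
  · rw [indicator_of_notMem h, indicator_of_notMem (by exact h), zero_mul]

lemma norm_gfun_le (S : Set ℝ) (a l ξ : ℝ) : ‖gfun S a l ξ‖ ≤ (√|a|)⁻¹ := by
  unfold gfun
  rw [norm_mul, norm_mul, Complex.norm_exp_ofReal_mul_I, mul_one, Complex.norm_real,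
    Real.norm_of_nonneg (by positivity)]
  by_cases h : ξ / a ∈ S
  · rw [indicator_of_mem h, norm_one, one_mul]
  · rw [indicator_of_notMem h, norm_zero, zero_mul]
    positivity

lemma measurable_gfun {S : Set ℝ} (hS : MeasurableSet S) (a l : ℝ) :
    Measurable (gfun S a l) := by
  unfold gfun
  apply Measurable.mul
  · exact (measurable_const.indicator hS).comp (measurable_id.div_const a)
  · fun_prop

lemma volume_scale {S : Set ℝ} {a : ℝ} (ha : a ≠ 0) (hS : volume S ≠ ∞) :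
    volume ((fun ξ : ℝ => ξ / a) ⁻¹' S) ≠ ∞ := by
  have h1 : (fun ξ : ℝ => ξ / a) ⁻¹' S = (fun ξ : ℝ => a⁻¹ * ξ) ⁻¹' S := by
    ext ξ
    simp [div_eq_inv_mul]
  rw [h1, Real.volume_preimage_mul_left (inv_ne_zero ha)]
  exact ENNReal.mul_ne_top ENNReal.ofReal_ne_top hS

lemma memLp_gfun {S : Set ℝ} (hS : MeasurableSet S) (hS2 : volume S ≠ ∞) {a : ℝ}
    (ha : a ≠ 0) (l : ℝ) (p : ℝ≥0∞) : MemLp (gfun S a l) p volume := by
  have hms : MeasurableSet ((fun ξ : ℝ => ξ / a) ⁻¹' S) :=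
    (measurable_id.div_const a) hS
  rw [gfun_eq_indicator, memLp_indicator_iff_restrict hms]
  have : IsFiniteMeasure (volume.restrict ((fun ξ : ℝ => ξ / a) ⁻¹' S)) :=
    ⟨by
      rw [Measure.restrict_apply_univ]
      exact lt_of_le_of_ne le_top (volume_scale ha hS2)⟩
  refine MemLp.of_bound (C := (√|a|)⁻¹) ?_ ?_
  · exact Measurable.aestronglyMeasurable (by fun_prop)
  · refine Filter.Eventually.of_forall fun ξ => ?_
    rw [norm_mul, Complex.norm_exp_ofReal_mul_I, mul_one, Complex.norm_real,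
      Real.norm_of_nonneg (by positivity)]

lemma integrable_gfun {S : Set ℝ} (hS : MeasurableSet S) (hS2 : volume S ≠ ∞) {a : ℝ}
    (ha : a ≠ 0) (l : ℝ) : Integrable (gfun S a l) volume :=
  memLp_one_iff_integrable.1 (memLp_gfun hS hS2 ha l 1)

/-- The pointwise inverse transform of `gfun`. -/
lemma fourierInv_gfun (S : Set ℝ) {a : ℝ} (ha : a ≠ 0) (l x : ℝ) :
    𝓕⁻ (gfun S a l) x =
      ((√|a| : ℝ) : ℂ) * 𝓕⁻ (S.indicator (fun _ => (1 : ℂ))) (a * x - l) := by
  rw [Real.fourierInv_eq', Real.fourierInv_eq']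
  have h1 : ∀ v : ℝ, Complex.exp (↑(2 * π * (inner ℝ v x)) * Complex.I) • gfun S a l v =
      (fun η : ℝ => (((√|a|)⁻¹ : ℝ) : ℂ) *
        (Complex.exp (↑(2 * π * (inner ℝ η (a * x - l))) * Complex.I) •
          S.indicator (fun _ => (1 : ℂ)) η)) (v / a) := by
    intro v
    unfold gfun
    simp only [smul_eq_mul]
    have e1 : Complex.exp (↑(2 * π * (inner ℝ (v / a) (a * x - l))) * Complex.I) =
        Complex.exp (↑(2 * π * (inner ℝ v x)) * Complex.I) *
        Complex.exp (((-2 * π * (l * (v / a)) : ℝ) : ℂ) * Complex.I) := by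
      rw [← Complex.exp_add]
      congr 1
      rw [← add_mul, ← Complex.ofReal_add]
      congr 2
      have e2 : ∀ u v : ℝ, inner ℝ u v = v * u := fun u v => rfl
      rw [e2, e2]
      field_simp
      ring
    rw [e1]
    ring
  rw [integral_congr_ae (Filter.Eventually.of_forall h1),
    Measure.integral_comp_div (fun η : ℝ => (((√|a|)⁻¹ : ℝ) : ℂ) *
        (Complex.exp (↑(2 * π * (inner ℝ η (a * x - l))) * Complex.I) •
          S.indicator (fun _ => (1 : ℂ)) η)) a, integral_const_mul]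
  rw [Complex.real_smul, ← mul_assoc]
  congr 1
  rw [← Complex.ofReal_mul]
  congr 1
  have h2 : 0 < √|a| := Real.sqrt_pos.2 (abs_pos.2 ha)
  field_simp
  exact (Real.sq_sqrt (abs_nonneg a)).symm

lemma ae_comp_affine {f g : ℝ → ℂ} (h : f =ᵐ[volume] g) {a : ℝ} (ha : a ≠ 0) (l : ℝ) :
    (fun x => f (a * x - l)) =ᵐ[volume] fun x => g (a * x - l) := by
  have hq : Measure.QuasiMeasurePreserving (fun x : ℝ => a * x - l) volume volume := by
    refine ⟨by fun_prop, ?_⟩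
    refine Measure.AbsolutelyContinuous.mk fun s hs h0 => ?_
    rw [Measure.map_apply (by fun_prop) hs]
    have h1 : (fun x : ℝ => a * x - l) ⁻¹' s = (fun x : ℝ => a * x) ⁻¹'
        ((fun x : ℝ => x - l) ⁻¹' s) := rfl
    rw [h1, Real.volume_preimage_mul_left ha,
      (measurePreserving_sub_right volume l).measure_preimage hs.nullMeasurableSet, h0, mul_zero]
  exact hq.ae_eq_comp h

/-- The Lp class of `gfun`. -/
noncomputable def G {S : Set ℝ} (hS : MeasurableSet S) (hS2 : volume S ≠ ∞) {a : ℝ}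
    (ha : a ≠ 0) (l : ℝ) : L2 := (memLp_gfun hS hS2 ha l 2).toLp (gfun S a l)

lemma gfun_one (S : Set ℝ) : gfun S 1 0 = S.indicator (fun _ => (1 : ℂ)) := by
  ext ξ
  simp [gfun]

lemma fourierInv_G_ae {S : Set ℝ} (hS : MeasurableSet S) (hS2 : volume S ≠ ∞) {a : ℝ}
    (ha : a ≠ 0) (l : ℝ) :
    ((𝓕⁻ (G hS hS2 ha l) : L2) : ℝ → ℂ) =ᵐ[volume]
      fun x => ((√|a| : ℝ) : ℂ) * (𝓕⁻ (G hS hS2 one_ne_zero 0) : L2) (a * x - l) := by
  have h1 := fourierInv_toLp_ae _ (integrable_gfun hS hS2 ha l) (memLp_gfun hS hS2 ha l 2)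
  have h2 := fourierInv_toLp_ae _ (integrable_gfun hS hS2 one_ne_zero 0)
    (memLp_gfun hS hS2 one_ne_zero 0 2)
  have h3 := ae_comp_affine h2 ha l
  refine h1.trans ?_
  filter_upwards [h3] with x hx
  rw [fourierInv_gfun S ha l x, ← gfun_one S]
  exact congrArg _ hx.symm

end Pool.Agent.R230.DR
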