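import Pool.Agent.R230.DR.P1

open MeasureTheory Set FourierTransform
open scoped ENNReal Real

namespace Pool.Agent.R230.DR

/-- the set `[-1,-1/2) ∪ [1/2,1)` -/
def B : Set ℝ := Ico (-1) (-1 / 2) ∪ Ico (1 / 2) 1
/-- the set `[1,5/4)` -/
def C : Set ℝ := Ico 1 (5 / 4)
/-- the set `[-1,-1/2) ∪ [1/2,5/4)` -/
def Om : Set ℝ := Ico (-1) (-1 / 2) ∪ Ico (1 / 2) (5 / 4)

lemma measB : MeasurableSet B := measurableSet_Ico.union measurableSet_Ico
lemma measC : MeasurableSet C := measurableSet_Ico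
lemma measOm : MeasurableSet Om := measurableSet_Ico.union measurableSet_Ico

lemma volB : volume B ≠ ∞ :=
  ((measure_union_le _ _).trans_lt (by simp [ENNReal.add_lt_top])).ne
lemma volC : volume C ≠ ∞ := by simp [C]
lemma volOm : volume Om ≠ ∞ :=
  ((measure_union_le _ _).trans_lt (by simp [ENNReal.add_lt_top])).ne

lemma mem_Om_iff (x : ℝ) : x ∈ Om ↔ x ∈ B ∨ x ∈ C := by
  simp only [Om, B, C, mem_union, mem_Ico]
  constructor
  · rintro (h | h)
    · exact Or.inl (Or.inl h)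
    · by_cases h1 : x < 1
      · exact Or.inl (Or.inr ⟨h.1, h1⟩)
      · exact Or.inr ⟨not_lt.1 h1, h.2⟩
  · rintro ((h | h) | h)
    · exact Or.inl h
    · exact Or.inr ⟨h.1, h.2.trans (by norm_num)⟩
    · exact Or.inr ⟨le_trans (by norm_num) h.1, h.2⟩

lemma not_B_and_C (x : ℝ) (h : x ∈ B) (h' : x ∈ C) : False := by
  simp only [B, C, mem_union, mem_Ico] at h h'
  rcases h with h | h <;> linarith [h.1, h.2, h'.1, h'.2]

lemma gfun_Om (a l ξ : ℝ) : gfun Om a l ξ = gfun B a l ξ + gfun C a l ξ := by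
  unfold gfun
  rw [← add_mul]
  congr 1
  by_cases h : ξ / a ∈ Om
  · rw [indicator_of_mem h]
    rcases (mem_Om_iff _).1 h with h1 | h1
    · rw [indicator_of_mem h1, indicator_of_notMem (fun h2 => not_B_and_C _ h1 h2), add_zero]
    · rw [indicator_of_mem h1, indicator_of_notMem (fun h2 => not_B_and_C _ h2 h1), zero_add]
  · have h1 : ξ / a ∉ B := fun h1 => h ((mem_Om_iff _).2 (Or.inl h1))
    have h2 : ξ / a ∉ C := fun h1 => h ((mem_Om_iff _).2 (Or.inr h1))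
    rw [indicator_of_notMem h, indicator_of_notMem h1, indicator_of_notMem h2, add_zero]

lemma two_zpow_pos (n : ℤ) : (0 : ℝ) < 2 ^ n := by positivity

lemma zpow_lt_two_mul {m n : ℤ} (h : (2 : ℝ) ^ m < 2 * 2 ^ n) : m ≤ n := by
  have h1 : (2 : ℝ) ^ m < 2 ^ (n + 1) := by
    rw [zpow_add₀ (by norm_num), zpow_one]
    linarith
  exact Int.lt_add_one_iff.1 ((zpow_lt_zpow_iff_right₀ (by norm_num)).1 h1)

/-- the members of the family at the sets `C` and `B` are related by a translation -/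
lemma gfun_shift (n m k : ℤ) (ξ : ℝ) (hξ : ξ ∈ Ico ((2 : ℝ) ^ n) (5 / 4 * 2 ^ n)) :
    gfun C (2 ^ m) k ξ = gfun B (2 ^ m) k (ξ - 2 * 2 ^ n) := by
  have hn := two_zpow_pos n
  have hm := two_zpow_pos m
  by_cases hnm : n = m
  · subst hnm
    have h1 : ξ / 2 ^ n ∈ C := by
      refine ⟨?_, ?_⟩
      · rw [le_div_iff₀ hn]; linarith [hξ.1]
      · rw [div_lt_iff₀ hn]; linarith [hξ.2]
    have h2 : (ξ - 2 * 2 ^ n) / 2 ^ n = ξ / 2 ^ n - 2 := by
      field_simp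
    have h3 : (ξ - 2 * 2 ^ n) / 2 ^ n ∈ B := by
      rw [h2]
      left
      exact ⟨by linarith [h1.1], by linarith [h1.2]⟩
    unfold gfun
    rw [indicator_of_mem h1, indicator_of_mem h3, h2]
    congr 2
    have h4 : (((-2 * π * (k * (ξ / 2 ^ n - 2)) : ℝ) : ℂ) * Complex.I) =
        (((-2 * π * (k * (ξ / 2 ^ n)) : ℝ) : ℂ) * Complex.I) +
          ((2 * k : ℤ) : ℂ) * (2 * π * Complex.I) := by
      push_cast
      ring
    rw [h4, Complex.exp_add, Complex.exp_int_mul_two_pi_mul_I, mul_one]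
  · have h1 : ξ / 2 ^ m ∉ C := by
      rintro ⟨h1, h2⟩
      rw [le_div_iff₀ hm] at h1
      rw [div_lt_iff₀ hm] at h2
      apply hnm
      apply le_antisymm
      · exact zpow_lt_two_mul (by linarith [hξ.1])
      · exact zpow_lt_two_mul (by linarith [hξ.2])
    have h2 : (ξ - 2 * 2 ^ n) / 2 ^ m ∉ B := by
      rintro (⟨h1, h2⟩ | ⟨h1, h2⟩)
      · rw [le_div_iff₀ hm] at h1
        rw [div_lt_iff₀ hm] at h2
        apply hnm
        apply le_antisymm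
        · exact zpow_lt_two_mul (by linarith [hξ.1, hξ.2])
        · exact zpow_lt_two_mul (by linarith [hξ.1, hξ.2])
      · rw [le_div_iff₀ hm] at h1
        linarith [hξ.2]
    unfold gfun
    rw [indicator_of_notMem h1, indicator_of_notMem h2]
    simp

lemma gfun_C_zero (m k : ℤ) (ξ : ℝ) (hξ : ∀ n : ℤ, ξ ∉ Ico ((2 : ℝ) ^ n) (5 / 4 * 2 ^ n)) :
    gfun C (2 ^ m) k ξ = 0 := by
  have hm := two_zpow_pos m
  have h1 : ξ / 2 ^ m ∉ C := by
    rintro ⟨h1, h2⟩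
    rw [le_div_iff₀ hm] at h1
    rw [div_lt_iff₀ hm] at h2
    exact hξ m ⟨by linarith, h2⟩
  unfold gfun
  rw [indicator_of_notMem h1, zero_mul]

lemma lint_V_le (U V : ℝ → ℂ)
    (hV : ∀ n : ℤ, ∀ ξ ∈ Ico ((2 : ℝ) ^ n) (5 / 4 * 2 ^ n), V ξ = U (ξ - 2 * 2 ^ n))
    (hV0 : ∀ ξ, (∀ n : ℤ, ξ ∉ Ico ((2 : ℝ) ^ n) (5 / 4 * 2 ^ n)) → V ξ = 0) :
    ∫⁻ ξ, ‖V ξ‖ₑ ^ 2 ≤ ∫⁻ ξ in Iio 0, ‖U ξ‖ₑ ^ 2 := by
  have h1 : ∫⁻ ξ, ‖V ξ‖ₑ ^ 2 =
      ∫⁻ ξ in ⋃ n : ℤ, Ico ((2 : ℝ) ^ n) (5 / 4 * 2 ^ n), ‖V ξ‖ₑ ^ 2 := by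
    rw [← lintegral_indicator (MeasurableSet.iUnion fun n => measurableSet_Ico)]
    congr 1
    ext ξ
    by_cases h : ξ ∈ ⋃ n : ℤ, Ico ((2 : ℝ) ^ n) (5 / 4 * 2 ^ n)
    · rw [indicator_of_mem h]
    · rw [indicator_of_notMem h, hV0 ξ (fun n hn => h (mem_iUnion.2 ⟨n, hn⟩))]
      simp
  rw [h1, lintegral_iUnion (fun n => measurableSet_Ico)]
  · have h2 : ∀ n : ℤ, ∫⁻ ξ in Ico ((2 : ℝ) ^ n) (5 / 4 * 2 ^ n), ‖V ξ‖ₑ ^ 2 =
        ∫⁻ ξ in Ico (-(2 : ℝ) ^ n) (-3 / 4 * 2 ^ n), ‖U ξ‖ₑ ^ 2 := by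
      intro n
      rw [setLIntegral_congr_fun measurableSet_Ico
        (fun ξ hξ => by simp only [hV n ξ hξ] : EqOn (fun ξ => ‖V ξ‖ₑ ^ 2)
          (fun ξ => ‖U (ξ - 2 * 2 ^ n)‖ₑ ^ 2) _)]
      have h3 := (measurePreserving_sub_right (volume : Measure ℝ)
        (2 * 2 ^ n)).setLIntegral_comp_preimage_emb
        (MeasurableEquiv.subRight (2 * (2 : ℝ) ^ n)).measurableEmbedding
        (fun ξ => ‖U ξ‖ₑ ^ 2) (Ico (-(2 : ℝ) ^ n) (-3 / 4 * 2 ^ n))
      rw [← h3]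
      congr 2
      ext ξ
      simp only [mem_preimage, mem_Ico]
      constructor
      · rintro ⟨h4, h5⟩
        constructor <;> linarith
      · rintro ⟨h4, h5⟩
        constructor <;> linarith
    simp_rw [h2]
    rw [← lintegral_iUnion (fun n => measurableSet_Ico)]
    · apply lintegral_mono_set
      intro ξ hξ
      obtain ⟨n, hn⟩ := mem_iUnion.1 hξ
      have := two_zpow_pos n
      show ξ < 0
      linarith [hn.2]
    · intro m n hmn
      rw [Function.onFun, Set.disjoint_left]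
      intro ξ h4 h5
      have hn := two_zpow_pos n
      have hm := two_zpow_pos m
      apply hmn
      apply le_antisymm
      · exact zpow_lt_two_mul (by linarith [h4.1, h4.2, h5.1, h5.2])
      · exact zpow_lt_two_mul (by linarith [h4.1, h4.2, h5.1, h5.2])
  · intro m n hmn
    rw [Function.onFun, Set.disjoint_left]
    intro ξ h4 h5
    have hn := two_zpow_pos n
    have hm := two_zpow_pos m
    apply hmn
    apply le_antisymm
    · exact zpow_lt_two_mul (by linarith [h4.1, h4.2, h5.1, h5.2])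
    · exact zpow_lt_two_mul (by linarith [h4.1, h4.2, h5.1, h5.2])

end Pool.Agent.R230.DR
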