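import Pool.Agent.R230.DR.P2

open MeasureTheory Set FourierTransform
open scoped ENNReal Real

namespace Pool.Agent.R230.DR

lemma norm_toLp_sq (F : ℝ → ℂ) (hF : MemLp F 2 volume) :
    ENNReal.ofReal (‖hF.toLp F‖ ^ 2) = ∫⁻ ξ, ‖F ξ‖ₑ ^ 2 := by
  rw [Lp.norm_toLp, ENNReal.ofReal_pow ENNReal.toReal_nonneg, ENNReal.ofReal_toReal hF.2.ne,
    eLpNorm_eq_lintegral_rpow_enorm_toReal (by norm_num) (by norm_num)]
  simp only [ENNReal.toReal_ofNat, ENNReal.rpow_ofNat]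
  rw [← ENNReal.rpow_natCast, ← ENNReal.rpow_mul]
  norm_num

lemma norm_le_of_lint {F F' : ℝ → ℂ} (hF : MemLp F 2 volume) (hF' : MemLp F' 2 volume)
    (h : ∫⁻ ξ, ‖F ξ‖ₑ ^ 2 ≤ ∫⁻ ξ, ‖F' ξ‖ₑ ^ 2) : ‖hF.toLp F‖ ≤ ‖hF'.toLp F'‖ := by
  rw [← norm_toLp_sq F hF, ← norm_toLp_sq F' hF',
    ENNReal.ofReal_le_ofReal_iff (by positivity)] at h
  exact (pow_le_pow_iff_left₀ (norm_nonneg _) (norm_nonneg _) (by norm_num)).1 h

/-- finite combinations of the family, as functions -/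
noncomputable def comb (S : Set ℝ) (s : Finset (ℤ × ℤ)) (x : ℤ × ℤ → ℂ) (ξ : ℝ) : ℂ :=
  ∑ j ∈ s, x j * gfun S (2 ^ j.1) j.2 ξ

lemma zpow_ne (n : ℤ) : (2 : ℝ) ^ n ≠ 0 := (two_zpow_pos n).ne'

lemma memLp_comb {S : Set ℝ} (hS : MeasurableSet S) (hS2 : volume S ≠ ∞)
    (s : Finset (ℤ × ℤ)) (x : ℤ × ℤ → ℂ) : MemLp (comb S s x) 2 volume := by
  unfold comb
  exact memLp_finsetSum s fun j _ => (memLp_gfun hS hS2 (zpow_ne j.1) j.2 2).const_mul (x j)

lemma toLp_comb {S : Set ℝ} (hS : MeasurableSet S) (hS2 : volume S ≠ ∞)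
    (s : Finset (ℤ × ℤ)) (x : ℤ × ℤ → ℂ) :
    (memLp_comb hS hS2 s x).toLp (comb S s x) =
      ∑ j ∈ s, x j • G hS hS2 (zpow_ne j.1) j.2 := by
  classical
  induction s using Finset.induction_on with
  | empty =>
    rw [Finset.sum_empty]
    apply Lp.ext
    filter_upwards [(memLp_comb hS hS2 ∅ x).coeFn_toLp, Lp.coeFn_zero ℂ 2 volume] with ξ h1 h2
    rw [h1, h2]
    simp [comb]
  | insert j s hj ih =>
    rw [Finset.sum_insert hj, ← ih]
    apply Lp.ext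
    filter_upwards [(memLp_comb hS hS2 (insert j s) x).coeFn_toLp,
      Lp.coeFn_add (x j • G hS hS2 (zpow_ne j.1) j.2)
        ((memLp_comb hS hS2 s x).toLp (comb S s x)),
      Lp.coeFn_smul (x j) (G hS hS2 (zpow_ne j.1) j.2),
      (memLp_comb hS hS2 s x).coeFn_toLp,
      (memLp_gfun hS hS2 (zpow_ne j.1) j.2 2).coeFn_toLp] with ξ h1 h2 h3 h4 h5
    rw [h1, h2, Pi.add_apply, h3, h4, Pi.smul_apply, smul_eq_mul]
    have h6 : (G hS hS2 (zpow_ne j.1) (j.2 : ℝ)) ξ = gfun S (2 ^ j.1) j.2 ξ := h5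
    rw [h6]
    unfold comb
    rw [Finset.sum_insert hj]

lemma comb_Om (s : Finset (ℤ × ℤ)) (x : ℤ × ℤ → ℂ) (ξ : ℝ) :
    comb Om s x ξ = comb B s x ξ + comb C s x ξ := by
  unfold comb
  rw [← Finset.sum_add_distrib]
  exact Finset.sum_congr rfl fun j _ => by rw [gfun_Om]; ring

lemma comb_shift (s : Finset (ℤ × ℤ)) (x : ℤ × ℤ → ℂ) (n : ℤ) (ξ : ℝ)
    (hξ : ξ ∈ Ico ((2 : ℝ) ^ n) (5 / 4 * 2 ^ n)) :
    comb C s x ξ = comb B s x (ξ - 2 * 2 ^ n) := by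
  unfold comb
  exact Finset.sum_congr rfl fun j _ => by rw [gfun_shift n j.1 j.2 ξ hξ]

lemma comb_C_zero (s : Finset (ℤ × ℤ)) (x : ℤ × ℤ → ℂ) (ξ : ℝ)
    (hξ : ∀ n : ℤ, ξ ∉ Ico ((2 : ℝ) ^ n) (5 / 4 * 2 ^ n)) : comb C s x ξ = 0 := by
  unfold comb
  exact Finset.sum_eq_zero fun j _ => by rw [gfun_C_zero j.1 j.2 ξ hξ, mul_zero]

lemma comb_C_neg (s : Finset (ℤ × ℤ)) (x : ℤ × ℤ → ℂ) (ξ : ℝ) (hξ : ξ < 0) :
    comb C s x ξ = 0 := by
  apply comb_C_zero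
  rintro n ⟨h1, h2⟩
  linarith [two_zpow_pos n]

/-- The part coming from `C` is controlled by the whole combination. -/
lemma norm_C_le_Om (s : Finset (ℤ × ℤ)) (x : ℤ × ℤ → ℂ) :
    ‖∑ j ∈ s, x j • G measC volC (zpow_ne j.1) j.2‖ ≤
      ‖∑ j ∈ s, x j • G measOm volOm (zpow_ne j.1) j.2‖ := by
  rw [← toLp_comb, ← toLp_comb]
  apply norm_le_of_lint
  refine (lint_V_le (comb B s x) (comb C s x) (fun n ξ hξ => comb_shift s x n ξ hξ)
    (fun ξ hξ => comb_C_zero s x ξ hξ)).trans ?_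
  calc ∫⁻ ξ in Iio 0, ‖comb B s x ξ‖ₑ ^ 2 = ∫⁻ ξ in Iio 0, ‖comb Om s x ξ‖ₑ ^ 2 := by
        apply setLIntegral_congr_fun measurableSet_Iio
        intro ξ hξ
        simp only [comb_Om, comb_C_neg s x ξ hξ, add_zero]
    _ ≤ ∫⁻ ξ, ‖comb Om s x ξ‖ₑ ^ 2 := setLIntegral_le_lintegral _ _

lemma norm_C_le_B (s : Finset (ℤ × ℤ)) (x : ℤ × ℤ → ℂ) :
    ‖∑ j ∈ s, x j • G measC volC (zpow_ne j.1) j.2‖ ≤
      ‖∑ j ∈ s, x j • G measB volB (zpow_ne j.1) j.2‖ := by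
  rw [← toLp_comb, ← toLp_comb]
  apply norm_le_of_lint
  refine (lint_V_le (comb B s x) (comb C s x) (fun n ξ hξ => comb_shift s x n ξ hξ)
    (fun ξ hξ => comb_C_zero s x ξ hξ)).trans ?_
  exact setLIntegral_le_lintegral _ _

lemma sum_Om (s : Finset (ℤ × ℤ)) (x : ℤ × ℤ → ℂ) :
    ∑ j ∈ s, x j • G measOm volOm (zpow_ne j.1) j.2 =
      ∑ j ∈ s, x j • G measB volB (zpow_ne j.1) j.2 +
      ∑ j ∈ s, x j • G measC volC (zpow_ne j.1) j.2 := by
  rw [← toLp_comb, ← toLp_comb, ← toLp_comb]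
  apply Lp.ext
  filter_upwards [(memLp_comb measOm volOm s x).coeFn_toLp,
    (memLp_comb measB volB s x).coeFn_toLp, (memLp_comb measC volC s x).coeFn_toLp,
    Lp.coeFn_add ((memLp_comb measB volB s x).toLp (comb B s x))
      ((memLp_comb measC volC s x).toLp (comb C s x))] with ξ h1 h2 h3 h4
  rw [h1, h4, Pi.add_apply, h2, h3, comb_Om]

/-! ### inner products -/

lemma inner_G {S : Set ℝ} (hS : MeasurableSet S) (hS2 : volume S ≠ ∞) {a : ℝ} (ha : a ≠ 0)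
    (l : ℝ) (f : L2) :
    inner ℂ (G hS hS2 ha l) f = ∫ ξ, (starRingEnd ℂ) (gfun S a l ξ) * f ξ := by
  rw [MeasureTheory.L2.inner_def]
  apply integral_congr_ae
  filter_upwards [(memLp_gfun hS hS2 ha l 2).coeFn_toLp] with ξ h1
  have h6 : (G hS hS2 ha l) ξ = gfun S a l ξ := h1
  rw [h6]
  simp [mul_comm]

lemma inner_GG {S S' : Set ℝ} (hS : MeasurableSet S) (hS2 : volume S ≠ ∞) {a : ℝ}
    (ha : a ≠ 0) (l : ℝ) (hS' : MeasurableSet S') (hS2' : volume S' ≠ ∞) {b : ℝ}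
    (hb : b ≠ 0) (l' : ℝ) :
    inner ℂ (G hS hS2 ha l) (G hS' hS2' hb l') =
      ∫ ξ, (starRingEnd ℂ) (gfun S a l ξ) * gfun S' b l' ξ := by
  rw [inner_G]
  apply integral_congr_ae
  filter_upwards [(memLp_gfun hS' hS2' hb l' 2).coeFn_toLp] with ξ h1
  have h6 : (G hS' hS2' hb l') ξ = gfun S' b l' ξ := h1
  rw [h6]

lemma conj_expI (t : ℝ) : (starRingEnd ℂ) (Complex.exp ((t : ℂ) * Complex.I)) =
    Complex.exp (((-t : ℝ) : ℂ) * Complex.I) := by
  rw [← Complex.exp_conj]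
  congr 1
  simp

lemma inner_same {S : Set ℝ} (hS : MeasurableSet S) (hS2 : volume S ≠ ∞) {a : ℝ}
    (ha : a ≠ 0) (k l : ℤ) :
    inner ℂ (G hS hS2 ha (k : ℝ)) (G hS hS2 ha (l : ℝ)) =
      ∫ η in S, Complex.exp ((-2 * π * Complex.I * ((l - k : ℤ) : ℂ)) * η) := by
  rw [inner_GG, ← integral_indicator hS]
  have h1 : ∀ ξ, (starRingEnd ℂ) (gfun S a k ξ) * gfun S a l ξ =
      (fun η : ℝ => ((|a|⁻¹ : ℝ) : ℂ) * S.indicator (fun η : ℝ =>
        Complex.exp ((-2 * π * Complex.I * ((l - k : ℤ) : ℂ)) * η)) η) (ξ / a) := by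
    intro ξ
    unfold gfun
    by_cases h : ξ / a ∈ S
    · simp only [indicator_of_mem h, one_mul, map_mul, Complex.conj_ofReal, conj_expI]
      rw [mul_mul_mul_comm, ← Complex.exp_add, ← Complex.ofReal_mul]
      congr 1
      · congr 1
        rw [← mul_inv, Real.mul_self_sqrt (abs_nonneg a)]
      · congr 1
        push_cast
        ring
    · simp only [indicator_of_notMem h, zero_mul, mul_zero]
  rw [integral_congr_ae (Filter.Eventually.of_forall h1),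
    Measure.integral_comp_div (fun η : ℝ => ((|a|⁻¹ : ℝ) : ℂ) * S.indicator (fun η : ℝ =>
        Complex.exp ((-2 * π * Complex.I * ((l - k : ℤ) : ℂ)) * η)) η) a, integral_const_mul]
  rw [Complex.real_smul, ← mul_assoc, ← Complex.ofReal_mul,
    mul_inv_cancel₀ (abs_pos.2 ha).ne', Complex.ofReal_one, one_mul]

lemma int_Ico (a b : ℝ) (hab : a ≤ b) (c : ℂ) (hc : c ≠ 0) :
    ∫ η in Ico a b, Complex.exp (c * η) =
      (Complex.exp (c * b) - Complex.exp (c * a)) / c := by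
  rw [integral_Ico_eq_integral_Ioo, ← integral_Ioc_eq_integral_Ioo,
    ← intervalIntegral.integral_of_le hab, integral_exp_mul_complex hc]

lemma integrableOn_exp (a b : ℝ) (c : ℂ) :
    IntegrableOn (fun η : ℝ => Complex.exp (c * η)) (Ico a b) := by
  apply (ContinuousOn.integrableOn_Icc (a := a) (b := b) ?_).mono_set Ico_subset_Icc_self
  fun_prop

lemma disj_B : Disjoint (Ico (-1 : ℝ) (-1 / 2)) (Ico (1 / 2) 1) := by
  rw [Set.disjoint_left]
  rintro x ⟨_, h1⟩ ⟨h2, _⟩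
  linarith

lemma int_B (m : ℤ) : ∫ η in B, Complex.exp ((-2 * π * Complex.I * (m : ℂ)) * η) =
    if m = 0 then 1 else 0 := by
  unfold B
  rw [setIntegral_union disj_B measurableSet_Ico (integrableOn_exp _ _ _)
    (integrableOn_exp _ _ _)]
  split_ifs with h
  · subst h
    simp
    norm_num
  · have hm : (m : ℂ) ≠ 0 := by exact_mod_cast h
    have hc : (-2 * π * Complex.I * (m : ℂ)) ≠ 0 :=
      mul_ne_zero (mul_ne_zero (mul_ne_zero (by norm_num)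
        (Complex.ofReal_ne_zero.2 Real.pi_ne_zero)) Complex.I_ne_zero) hm
    rw [int_Ico _ _ (by norm_num) _ hc, int_Ico _ _ (by norm_num) _ hc, ← add_div]
    have e1 : Complex.exp ((-2 * π * Complex.I * (m : ℂ)) * ((1 : ℝ) : ℂ)) = 1 := by
      have : (-2 * π * Complex.I * (m : ℂ)) * ((1 : ℝ) : ℂ) =
          ((-m : ℤ) : ℂ) * (2 * π * Complex.I) := by push_cast; ring
      rw [this, Complex.exp_int_mul_two_pi_mul_I]
    have e2 : Complex.exp ((-2 * π * Complex.I * (m : ℂ)) * ((-1 : ℝ) : ℂ)) = 1 := by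
      have : (-2 * π * Complex.I * (m : ℂ)) * ((-1 : ℝ) : ℂ) =
          ((m : ℤ) : ℂ) * (2 * π * Complex.I) := by push_cast; ring
      rw [this, Complex.exp_int_mul_two_pi_mul_I]
    have e3 : Complex.exp ((-2 * π * Complex.I * (m : ℂ)) * ((1 / 2 : ℝ) : ℂ)) =
        Complex.exp ((-2 * π * Complex.I * (m : ℂ)) * ((-1 / 2 : ℝ) : ℂ)) := by
      have : (-2 * π * Complex.I * (m : ℂ)) * ((1 / 2 : ℝ) : ℂ) =
          (-2 * π * Complex.I * (m : ℂ)) * ((-1 / 2 : ℝ) : ℂ) +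
            ((-m : ℤ) : ℂ) * (2 * π * Complex.I) := by push_cast; ring
      rw [this, Complex.exp_add, Complex.exp_int_mul_two_pi_mul_I, mul_one]
    rw [e1, e2, e3]
    simp

lemma orthonormal_B :
    Orthonormal ℂ (fun j : ℤ × ℤ => G measB volB (zpow_ne j.1) (j.2 : ℝ)) := by
  rw [orthonormal_iff_ite]
  rintro ⟨n, k⟩ ⟨m, l⟩
  by_cases hnm : n = m
  · subst hnm
    simp only
    rw [inner_same measB volB (zpow_ne n) k l, int_B]
    by_cases hkl : k = l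
    · subst hkl
      simp
    · rw [if_neg (by omega), if_neg (by simp [hkl])]
  · rw [if_neg (by simp [hnm]), inner_GG]
    have h0 : ∀ ξ : ℝ, (starRingEnd ℂ) (gfun B (2 ^ n) k ξ) * gfun B (2 ^ m) l ξ = 0 := by
      intro ξ
      have hn := two_zpow_pos n
      have hm := two_zpow_pos m
      by_cases h1 : ξ / 2 ^ n ∈ B
      · by_cases h2 : ξ / 2 ^ m ∈ B
        · exfalso
          apply hnm
          rcases h1 with h1 | h1 <;> rcases h2 with h2 | h2 <;>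
          · obtain ⟨a1, a2⟩ := h1
            obtain ⟨b1, b2⟩ := h2
            rw [le_div_iff₀ hn] at a1
            rw [div_lt_iff₀ hn] at a2
            rw [le_div_iff₀ hm] at b1
            rw [div_lt_iff₀ hm] at b2
            exact le_antisymm (zpow_lt_two_mul (by linarith)) (zpow_lt_two_mul (by linarith))
        · unfold gfun
          rw [indicator_of_notMem h2, zero_mul, mul_zero]
      · unfold gfun
        rw [indicator_of_notMem h1, zero_mul, map_zero, zero_mul]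
    simp_rw [h0]
    simp

end Pool.Agent.R230.DR
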