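import Pool.Agent.R230.DR.P3

open MeasureTheory Set FourierTransform
open scoped ENNReal Real

namespace Pool.Agent.R230.DR

lemma zero_of_fourier {T : ℝ} (hT : 0 < T) (h : ℝ → ℂ)
    (h2 : MemLp h 2 (volume.restrict (Ioc 0 T)))
    (hz : ∀ k : ℤ, ∫ x in (0 : ℝ)..T,
      Complex.exp (((2 * π * (k * (x / T)) : ℝ) : ℂ) * Complex.I) * h x = 0) :
    ∀ᵐ ξ ∂(volume.restrict (Ioc 0 T)), h ξ = 0 := by
  have h3 : ∀ k : ℤ, fourierCoeffOn hT h k = 0 := by
    intro k
    rw [fourierCoeffOn_eq_integral]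
    have h4 := hz (-k)
    have h5 : ∫ x in (0 : ℝ)..T, fourier (-k) (x : AddCircle (T - 0)) • h x =
        ∫ x in (0 : ℝ)..T,
      Complex.exp (((2 * π * ((-k : ℤ) * (x / T)) : ℝ) : ℂ) * Complex.I) * h x := by
      apply intervalIntegral.integral_congr
      intro x _
      simp only
      rw [fourier_coe_apply, smul_eq_mul]
      congr 2
      push_cast
      ring
    rw [h5, h4, smul_zero]
  have h6 := hasSum_sq_fourierCoeffOn hT h2
  simp only [h3, norm_zero] at h6
  have h7 : (T - 0)⁻¹ • ∫ x in (0 : ℝ)..T, ‖h x‖ ^ 2 = 0 := by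
    refine HasSum.unique h6 ?_
    have : (fun _ : ℤ => (0 : ℝ) ^ 2) = fun _ => 0 := by
      ext
      norm_num
    rw [this]
    exact hasSum_zero
  have h8 : ∫ x in (0 : ℝ)..T, ‖h x‖ ^ 2 = 0 := by
    rcases smul_eq_zero.1 h7 with h9 | h9
    · rw [sub_zero, inv_eq_zero] at h9
      exact absurd h9 hT.ne'
    · exact h9
  rw [intervalIntegral.integral_of_le hT.le] at h8
  have h10 : Integrable (fun x => ‖h x‖ ^ 2) (volume.restrict (Ioc 0 T)) := by
    have := h2.integrable_norm_pow (by norm_num)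
    simpa using this
  rw [integral_eq_zero_iff_of_nonneg (fun x => by positivity) h10] at h8
  filter_upwards [h8] with x hx
  have : ‖h x‖ ^ 2 = 0 := hx
  exact norm_eq_zero.1 (pow_eq_zero_iff (by norm_num) |>.1 this)

/-- the periodization of `F 1_{TΩ}` on `[0,T)` -/
noncomputable def hper (T : ℝ) (F : ℝ → ℂ) (ξ : ℝ) : ℂ :=
  (Ico 0 (T / 2)).indicator (fun x => F (x - T)) ξ + (Ico (T / 2) T).indicator F ξ +
    (Ico 0 (T / 4)).indicator (fun x => F (x + T)) ξ

lemma integrable_ind {F : ℝ → ℂ} (hF : MemLp F 2 volume) (a b : ℝ) :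
    Integrable ((Ico a b).indicator F) := by
  rw [integrable_indicator_iff measurableSet_Ico]
  have h1 : MemLp F 2 (volume.restrict (Ico a b)) := hF.restrict _
  exact h1.integrable (by norm_num)

lemma periodize {T : ℝ} (hT : 0 < T) {F : ℝ → ℂ} (hF : MemLp F 2 volume) :
    ∫ x in (0 : ℝ)..T, hper T F x =
      ∫ ξ, Om.indicator (fun _ => (1 : ℂ)) (ξ / T) * F ξ := by
  have hm : MemLp (fun x => F (x - T)) 2 volume :=
    hF.comp_measurePreserving (measurePreserving_sub_right volume T)
  have hp : MemLp (fun x => F (x + T)) 2 volume :=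
    hF.comp_measurePreserving (measurePreserving_add_right volume T)
  have i1 := integrable_ind hm 0 (T / 2)
  have i2 := integrable_ind hF (T / 2) T
  have i3 := integrable_ind hp 0 (T / 4)
  have j1 := integrable_ind hF (-T) (-T / 2)
  have j3 := integrable_ind hF T (5 / 4 * T)
  rw [intervalIntegral.integral_of_le hT.le, integral_Ioc_eq_integral_Ioo,
    ← integral_Ico_eq_integral_Ioo, setIntegral_eq_integral_of_forall_compl_eq_zero]
  · have e0 : ∫ x, hper T F x = (∫ x, (Ico 0 (T / 2)).indicator (fun x => F (x - T)) x) +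
        (∫ x, (Ico (T / 2) T).indicator F x) +
        (∫ x, (Ico 0 (T / 4)).indicator (fun x => F (x + T)) x) := by
      unfold hper
      have a1 := integral_add (i1.add i2) i3
      have a2 := integral_add i1 i2
      simp only [Pi.add_apply] at a1
      rw [a1, a2]
    have e1 : ∫ x, (Ico 0 (T / 2)).indicator (fun x => F (x - T)) x =
        ∫ x, (Ico (-T) (-T / 2)).indicator F x := by
      rw [← integral_sub_right_eq_self (fun x => (Ico (-T) (-T / 2)).indicator F x) T]
      congr 1
      ext x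
      by_cases h : x ∈ Ico 0 (T / 2)
      · rw [indicator_of_mem h, indicator_of_mem]
        exact ⟨by linarith [h.1], by linarith [h.2]⟩
      · rw [indicator_of_notMem h, indicator_of_notMem]
        rintro ⟨h1, h2⟩
        exact h ⟨by linarith, by linarith⟩
    have e3 : ∫ x, (Ico 0 (T / 4)).indicator (fun x => F (x + T)) x =
        ∫ x, (Ico T (5 / 4 * T)).indicator F x := by
      rw [← integral_add_right_eq_self (fun x => (Ico T (5 / 4 * T)).indicator F x) T]
      congr 1
      ext x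
      by_cases h : x ∈ Ico 0 (T / 4)
      · rw [indicator_of_mem h, indicator_of_mem]
        exact ⟨by linarith [h.1], by linarith [h.2]⟩
      · rw [indicator_of_notMem h, indicator_of_notMem]
        rintro ⟨h1, h2⟩
        exact h ⟨by linarith, by linarith⟩
    have e4 : ∫ ξ, Om.indicator (fun _ => (1 : ℂ)) (ξ / T) * F ξ =
        (∫ x, (Ico (-T) (-T / 2)).indicator F x) +
        (∫ x, (Ico (T / 2) T).indicator F x) +
        (∫ x, (Ico T (5 / 4 * T)).indicator F x) := by
      have a1 := integral_add (j1.add i2) j3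
      have a2 := integral_add j1 i2
      simp only [Pi.add_apply] at a1
      rw [← a2, ← a1]
      congr 1
      ext ξ
      by_cases h1 : ξ ∈ Ico (-T) (-T / 2)
      · have n2 : ξ ∉ Ico (T / 2) T := fun h => by linarith [h.1, h1.2]
        have n3 : ξ ∉ Ico T (5 / 4 * T) := fun h => by linarith [h.1, h1.2]
        have m : ξ / T ∈ Om := by
          left
          refine ⟨?_, ?_⟩
          · rw [le_div_iff₀ hT]; linarith [h1.1]
          · rw [div_lt_iff₀ hT]; linarith [h1.2]
        rw [indicator_of_mem h1, indicator_of_notMem n2, indicator_of_notMem n3,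
          indicator_of_mem m]
        ring
      · by_cases h2 : ξ ∈ Ico (T / 2) T
        · have n3 : ξ ∉ Ico T (5 / 4 * T) := fun h => by linarith [h.1, h2.2]
          have m : ξ / T ∈ Om := by
            right
            refine ⟨?_, ?_⟩
            · rw [le_div_iff₀ hT]; linarith [h2.1]
            · rw [div_lt_iff₀ hT]; linarith [h2.2]
          rw [indicator_of_notMem h1, indicator_of_mem h2, indicator_of_notMem n3,
            indicator_of_mem m]
          ring
        · by_cases h3 : ξ ∈ Ico T (5 / 4 * T)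
          · have m : ξ / T ∈ Om := by
              right
              refine ⟨?_, ?_⟩
              · rw [le_div_iff₀ hT]; linarith [h3.1]
              · rw [div_lt_iff₀ hT]; linarith [h3.2]
            rw [indicator_of_notMem h1, indicator_of_notMem h2, indicator_of_mem h3,
              indicator_of_mem m]
            ring
          · have m : ξ / T ∉ Om := by
              rintro (⟨m1, m2⟩ | ⟨m1, m2⟩)
              · rw [le_div_iff₀ hT] at m1
                rw [div_lt_iff₀ hT] at m2
                exact h1 ⟨by linarith, by linarith⟩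
              · rw [le_div_iff₀ hT] at m1
                rw [div_lt_iff₀ hT] at m2
                by_cases m3 : ξ < T
                · exact h2 ⟨by linarith, m3⟩
                · exact h3 ⟨not_lt.1 m3, by linarith⟩
            rw [indicator_of_notMem h1, indicator_of_notMem h2, indicator_of_notMem h3,
              indicator_of_notMem m]
            ring
    rw [e0, e1, e3, e4]
  · intro x hx
    unfold hper
    rw [indicator_of_notMem, indicator_of_notMem, indicator_of_notMem]
    · simp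
    · rintro ⟨h1, h2⟩
      exact hx ⟨h1, by linarith⟩
    · rintro ⟨h1, h2⟩
      exact hx ⟨by linarith, by linarith⟩
    · rintro ⟨h1, h2⟩
      exact hx ⟨h1, by linarith⟩

/-- the character of period `T` -/
noncomputable def ee (T : ℝ) (k : ℤ) (x : ℝ) : ℂ :=
  Complex.exp (((2 * π * (k * (x / T)) : ℝ) : ℂ) * Complex.I)

lemma norm_ee (T : ℝ) (k : ℤ) (x : ℝ) : ‖ee T k x‖ = 1 := Complex.norm_exp_ofReal_mul_I _

lemma ee_add {T : ℝ} (hT : 0 < T) (k : ℤ) (x : ℝ) : ee T k (x + T) = ee T k x := by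
  unfold ee
  have : (((2 * π * (k * ((x + T) / T)) : ℝ) : ℂ) * Complex.I) =
      (((2 * π * (k * (x / T)) : ℝ) : ℂ) * Complex.I) + (k : ℂ) * (2 * π * Complex.I) := by
    have h1 : (x + T) / T = x / T + 1 := by field_simp
    rw [h1]
    push_cast
    ring
  rw [this, Complex.exp_add, Complex.exp_int_mul_two_pi_mul_I, mul_one]

lemma ee_sub {T : ℝ} (hT : 0 < T) (k : ℤ) (x : ℝ) : ee T k (x - T) = ee T k x := by
  have := ee_add hT k (x - T)
  rw [sub_add_cancel] at this
  exact this.symm

lemma hper_ee {T : ℝ} (hT : 0 < T) (k : ℤ) (F : ℝ → ℂ) (x : ℝ) :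
    hper T (fun y => ee T k y * F y) x = ee T k x * hper T F x := by
  unfold hper
  rw [mul_add, mul_add]
  congr 1
  · congr 1
    · by_cases h : x ∈ Ico 0 (T / 2)
      · rw [indicator_of_mem h, indicator_of_mem h]
        simp only [ee_sub hT]
      · rw [indicator_of_notMem h, indicator_of_notMem h, mul_zero]
    · by_cases h : x ∈ Ico (T / 2) T
      · rw [indicator_of_mem h, indicator_of_mem h]
      · rw [indicator_of_notMem h, indicator_of_notMem h, mul_zero]
  · by_cases h : x ∈ Ico 0 (T / 4)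
    · rw [indicator_of_mem h, indicator_of_mem h]
      simp only [ee_add hT]
    · rw [indicator_of_notMem h, indicator_of_notMem h, mul_zero]

lemma memLp_hper {T : ℝ} {F : ℝ → ℂ} (hF : MemLp F 2 volume) :
    MemLp (hper T F) 2 volume := by
  have hm : MemLp (fun x => F (x - T)) 2 volume :=
    hF.comp_measurePreserving (measurePreserving_sub_right volume T)
  have hp : MemLp (fun x => F (x + T)) 2 volume :=
    hF.comp_measurePreserving (measurePreserving_add_right volume T)
  exact ((hm.indicator measurableSet_Ico).add (hF.indicator measurableSet_Ico)).add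
    (hp.indicator measurableSet_Ico)

lemma memLp_ee {T : ℝ} (k : ℤ) {F : ℝ → ℂ} (hF : MemLp F 2 volume) :
    MemLp (fun y => ee T k y * F y) 2 volume := by
  refine hF.of_le ?_ ?_
  · refine AEStronglyMeasurable.mul ?_ hF.1
    apply Continuous.aestronglyMeasurable
    unfold ee
    fun_prop
  · exact Filter.Eventually.of_forall fun y => by rw [norm_mul, norm_ee, one_mul]

lemma hper_zero {T : ℝ} (hT : 0 < T) (f : L2)
    (hf : ∀ k : ℤ, inner ℂ (G measOm volOm hT.ne' (k : ℝ)) f = 0) :
    ∀ᵐ ξ : ℝ, ξ ∈ Ioc 0 T → hper T f ξ = 0 := by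
  have hF : MemLp (f : ℝ → ℂ) 2 volume := Lp.memLp f
  have h1 := zero_of_fourier hT (hper T f) ((memLp_hper hF).restrict _) ?_
  · rwa [ae_restrict_iff' measurableSet_Ioc] at h1
  · intro k
    have h2 : ∫ x in (0 : ℝ)..T, Complex.exp (((2 * π * (k * (x / T)) : ℝ) : ℂ) * Complex.I) *
        hper T f x = ∫ x in (0 : ℝ)..T, hper T (fun y => ee T k y * f y) x := by
      apply intervalIntegral.integral_congr
      intro x _
      exact (hper_ee hT k f x).symm
    rw [h2, periodize hT (memLp_ee k hF)]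
    have h3 := hf k
    rw [inner_G] at h3
    have h4 : ∀ ξ, (starRingEnd ℂ) (gfun Om T k ξ) * f ξ = (((√|T|)⁻¹ : ℝ) : ℂ) *
        (Om.indicator (fun _ => (1 : ℂ)) (ξ / T) * (ee T k ξ * f ξ)) := by
      intro ξ
      unfold gfun ee
      by_cases h : ξ / T ∈ Om
      · simp only [indicator_of_mem h, one_mul, map_mul, Complex.conj_ofReal, conj_expI]
        rw [mul_assoc]
        congr 3
        congr 2
        ring
      · simp only [indicator_of_notMem h, zero_mul, map_zero, mul_zero]
    simp_rw [h4] at h3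
    rw [integral_const_mul] at h3
    rcases mul_eq_zero.1 h3 with h5 | h5
    · exfalso
      have h6 : (√|T|)⁻¹ ≠ 0 := by
        have : 0 < √|T| := Real.sqrt_pos.2 (abs_pos.2 hT.ne')
        positivity
      exact h6 (Complex.ofReal_eq_zero.1 h5)
    · exact h5

lemma ae_shift {p : ℝ → Prop} (h : ∀ᵐ x : ℝ, p x) (c : ℝ) : ∀ᵐ x : ℝ, p (x + c) :=
  (measurePreserving_add_right (volume : Measure ℝ) c).quasiMeasurePreserving.ae h

lemma complete (f : L2)
    (hf : ∀ n k : ℤ, inner ℂ (G measOm volOm (zpow_ne n) (k : ℝ)) f = 0) : f = 0 := by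
  have h1 : ∀ᵐ ξ : ℝ, ∀ n : ℤ, ξ ∈ Ioc (0 : ℝ) (2 ^ n) → hper (2 ^ n) f ξ = 0 := by
    rw [ae_all_iff]
    intro n
    exact hper_zero (two_zpow_pos n) f (hf n)
  have h2 : ∀ᵐ ξ : ℝ, 0 < ξ → f ξ = 0 := by
    filter_upwards [h1] with ξ h hξ
    obtain ⟨m, hm1, hm2⟩ := exists_mem_Ico_zpow hξ (by norm_num : (1 : ℝ) < 2)
    have hm := two_zpow_pos m
    have h3 : (2 : ℝ) ^ (m + 1) = 2 * 2 ^ m := by
      rw [zpow_add₀ (by norm_num), zpow_one]; ring
    have h4 := h (m + 1) ⟨hξ, hm2.le⟩
    unfold hper at h4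
    rw [h3] at h4 hm2
    rw [indicator_of_notMem, indicator_of_mem, indicator_of_notMem] at h4
    · simpa using h4
    · rintro ⟨a, b⟩
      linarith
    · exact ⟨by linarith, hm2⟩
    · rintro ⟨a, b⟩
      linarith
  have h3 : ∀ᵐ ξ : ℝ, ∀ n : ℤ, 0 < ξ + 2 ^ n → f (ξ + 2 ^ n) = 0 := by
    rw [ae_all_iff]
    intro n
    exact ae_shift h2 _
  have h4 : ∀ᵐ ξ : ℝ, ∀ n : ℤ, ξ ∈ Ioo (0 : ℝ) (2 ^ n / 2) → f (ξ - 2 ^ n) = 0 := by
    filter_upwards [h1, h3] with ξ ha hb n hξ
    have hn := two_zpow_pos n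
    have hc := ha n ⟨hξ.1, by linarith [hξ.2]⟩
    unfold hper at hc
    rw [indicator_of_mem (show ξ ∈ Ico (0 : ℝ) (2 ^ n / 2) from ⟨hξ.1.le, hξ.2⟩),
      indicator_of_notMem (show ξ ∉ Ico ((2 : ℝ) ^ n / 2) (2 ^ n) from
        fun h => by linarith [h.1, hξ.2])] at hc
    by_cases hd : ξ ∈ Ico (0 : ℝ) (2 ^ n / 4)
    · rw [indicator_of_mem hd, hb n (by linarith [hξ.1])] at hc
      simpa using hc
    · rw [indicator_of_notMem hd] at hc
      simpa using hc
  have h5 : ∀ᵐ ξ : ℝ, ∀ n : ℤ, ξ + 2 ^ n ∈ Ioo (0 : ℝ) (2 ^ n / 2) → f ξ = 0 := by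
    rw [ae_all_iff]
    intro n
    have := ae_shift (h4.mono fun ξ h => h n) (2 ^ n)
    filter_upwards [this] with ξ h hξ
    have h6 := h hξ
    rwa [add_sub_cancel_right] at h6
  have h6 : ∀ᵐ ξ : ℝ, ξ ∉ Set.range (fun n : ℤ => -(2 : ℝ) ^ n) :=
    (Set.countable_range _).ae_notMem _
  have h7 : ∀ᵐ ξ : ℝ, ξ ≠ 0 := by
    have := (Set.countable_singleton (0 : ℝ)).ae_notMem (volume : Measure ℝ)
    simpa using this
  rw [Lp.eq_zero_iff_ae_eq_zero]
  filter_upwards [h2, h5, h6, h7] with ξ ha hb hc hd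
  rcases lt_or_gt_of_ne hd with hneg | hpos
  · obtain ⟨m, hm1, hm2⟩ := exists_mem_Ico_zpow (neg_pos.2 hneg) (by norm_num : (1 : ℝ) < 2)
    have hm := two_zpow_pos m
    have e3 : (2 : ℝ) ^ (m + 1) = 2 * 2 ^ m := by
      rw [zpow_add₀ (by norm_num), zpow_one]; ring
    have hne : (2 : ℝ) ^ m ≠ -ξ := fun h => hc ⟨m, by simp only; linarith⟩
    have hlt : (2 : ℝ) ^ m < -ξ := lt_of_le_of_ne hm1 hne
    apply hb (m + 1)
    rw [e3] at hm2 ⊢
    exact ⟨by linarith, by linarith⟩
  · exact ha hpos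

end Pool.Agent.R230.DR
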